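import Pool.Agent.Q291.HEA.Stm2

/-! # Project HEA: common lemmas for OSC and LOW -/

namespace Pool.Agent.Q111.HEA

open MeasureTheory Filter Topology Set Pool.Agent.Q291.HEA

theorem tanh_mono {x y : ℝ} (h : x ≤ y) : Real.tanh x ≤ Real.tanh y := by
  rw [Real.tanh_eq_sinh_div_cosh, Real.tanh_eq_sinh_div_cosh,
    div_le_div_iff₀ (Real.cosh_pos x) (Real.cosh_pos y)]
  have h1 := Real.sinh_sub y x
  have h2 : 0 ≤ Real.sinh (y - x) := Real.sinh_nonneg_iff.2 (by linarith)
  nlinarith

theorem tanh_nonneg {x : ℝ} (h : 0 ≤ x) : 0 ≤ Real.tanh x := by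
  have := tanh_mono h
  rwa [Real.tanh_zero] at this

theorem abs_tanh (x : ℝ) : |Real.tanh x| = Real.tanh |x| := by
  rcases le_total 0 x with h | h
  · rw [abs_of_nonneg h, abs_of_nonneg (tanh_nonneg h)]
  · have h1 := tanh_nonneg (neg_nonneg.2 h)
    rw [abs_of_nonpos h]
    rw [Real.tanh_neg] at h1 ⊢
    exact abs_of_nonpos (by linarith)

theorem tanh_le {x : ℝ} (h : 0 ≤ x) : Real.tanh x ≤ 2 * x := by
  rw [Real.tanh_eq_sinh_div_cosh, div_le_iff₀ (Real.cosh_pos x), Real.sinh_eq, Real.cosh_eq]
  have h1 : 1 - 2 * x ≤ Real.exp (-(2 * x)) := by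
    have := Real.add_one_le_exp (-(2 * x))
    linarith
  have h2 : Real.exp (-x) = Real.exp x * Real.exp (-(2 * x)) := by
    rw [← Real.exp_add]
    ring_nf
  have h3 := Real.exp_pos x
  have h4 := Real.exp_pos (-x)
  have h5 : Real.exp x * (1 - 2 * x) ≤ Real.exp (-x) := by
    rw [h2]
    exact mul_le_mul_of_nonneg_left h1 h3.le
  nlinarith

theorem abs_tanh_le (x : ℝ) : |Real.tanh x| ≤ 2 * |x| := by
  rw [abs_tanh]
  exact tanh_le (abs_nonneg x)

theorem abs_tanh_le_one (x : ℝ) : |Real.tanh x| ≤ 1 := (Real.abs_tanh_lt_one x).le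

theorem abs_sgn (s : Bool) : |sgn s| = 1 := by
  unfold sgn
  split_ifs <;> simp

theorem sgn_not (s : Bool) : sgn (!s) = -sgn s := by
  cases s <;> simp [sgn]

section

variable {V E : Type} (l r : E → V)

open Classical in
theorem fv_nonneg (K : E → ℝ) (Λ : Finset V) (σ : V → Bool) (A : Set (V → Bool)) :
    0 ≤ finiteVolume l r K Λ σ A := by
  unfold finiteVolume
  apply div_nonneg
  · apply Finset.sum_nonneg
    intro η _
    exact mul_nonneg (Real.exp_pos _).le (indicator_nonneg (fun _ _ => zero_le_one) _)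
  · apply Finset.sum_nonneg
    intro η _
    exact (Real.exp_pos _).le

open Classical in
theorem fv_le_one (K : E → ℝ) (Λ : Finset V) (σ : V → Bool) (A : Set (V → Bool)) :
    finiteVolume l r K Λ σ A ≤ 1 := by
  unfold finiteVolume
  apply div_le_one_of_le₀
  · apply Finset.sum_le_sum
    intro η _
    have h1 : A.indicator (fun _ => (1 : ℝ)) (glue Λ η σ) ≤ 1 := by
      unfold indicator
      split_ifs <;> norm_num
    exact mul_le_of_le_one_right (Real.exp_pos _).le h1
  · apply Finset.sum_nonneg
    intro η _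
    exact (Real.exp_pos _).le

theorem fv_diff (K : E → ℝ) (Λ : Finset V) (σ σ' : V → Bool) (A : Set (V → Bool)) :
    |finiteVolume l r K Λ σ A - finiteVolume l r K Λ σ' A| ≤ 1 := by
  have h1 := fv_nonneg l r K Λ σ A
  have h2 := fv_le_one l r K Λ σ A
  have h3 := fv_nonneg l r K Λ σ' A
  have h4 := fv_le_one l r K Λ σ' A
  rw [abs_le]
  constructor <;> linarith

open Classical in
/-- the event at a site outside the volume -/
theorem fv_off (K : E → ℝ) (Λ : Finset V) (σ : V → Bool) (a : V) (ha : a ∉ Λ) :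
    finiteVolume l r K Λ σ {η | η a = true} = if σ a then 1 else 0 := by
  unfold finiteVolume
  have h1 : ∀ η : Λ → Bool, ({η | η a = true} : Set (V → Bool)).indicator (fun _ => (1 : ℝ))
      (glue Λ η σ) = if σ a then 1 else 0 := by
    intro η
    have h2 : glue Λ η σ a = σ a := by
      unfold glue
      rw [dif_neg ha]
    unfold indicator
    simp only [mem_ofPred_eq, h2]
  simp only [h1]
  rw [← Finset.sum_mul, mul_comm, mul_div_assoc, div_self, mul_one]
  apply ne_of_gt
  apply Finset.sum_pos
  · intro η _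
    exact Real.exp_pos _
  · exact ⟨fun _ => true, Finset.mem_univ _⟩

end

/-! ### The step -/

open Classical in
theorem step {V : Type} (g g' th : (V → Bool) → ℝ) (m P : V) (hPm : P ≠ m) (a : ℝ)
    (hth : ∀ σ, |th σ| ≤ a) (hth1 : ∀ σ, |th σ| ≤ 1)
    (hg : ∀ σ, g' σ = (1 + th σ) / 2 * g (Function.update σ m true) +
      (1 - th σ) / 2 * g (Function.update σ m false))
    (hdep : ∀ σ σ', σ P = σ' P → σ m = σ' m → g σ = g σ') (h01 : ∀ σ σ', |g σ - g σ'| ≤ 1) :
    (∀ σ σ', σ P = σ' P → |g' σ - g' σ'| ≤ a) ∧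
    ∀ c, (∀ σ σ', σ m = σ' m → |g σ - g σ'| ≤ c) → ∀ σ σ', |g' σ - g' σ'| ≤ c + a := by
  have key : ∀ σ σ' D : ℝ, |σ| ≤ a → |σ'| ≤ a → |D| ≤ 1 → |(σ - σ') / 2 * D| ≤ a := by
    intro s s' D h1 h2 h3
    rw [abs_mul, abs_div, abs_of_pos (by norm_num : (0 : ℝ) < 2)]
    have h4 : |s - s'| ≤ a + a := (abs_sub s s').trans (by linarith)
    have h5 : |s - s'| / 2 ≤ a := by linarith
    calc |s - s'| / 2 * |D| ≤ |s - s'| / 2 * 1 := mul_le_mul_of_nonneg_left h3 (by positivity)
      _ ≤ a := by linarith
  constructor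
  · intro σ σ' h
    have e : ∀ b, g (Function.update σ m b) = g (Function.update σ' m b) := by
      intro b
      apply hdep
      · rw [Function.update_of_ne hPm, Function.update_of_ne hPm, h]
      · rw [Function.update_self, Function.update_self]
    rw [hg σ, hg σ', e true, e false]
    have e2 : (1 + th σ) / 2 * g (Function.update σ' m true) +
        (1 - th σ) / 2 * g (Function.update σ' m false) -
        ((1 + th σ') / 2 * g (Function.update σ' m true) +
        (1 - th σ') / 2 * g (Function.update σ' m false)) =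
        (th σ - th σ') / 2 * (g (Function.update σ' m true) - g (Function.update σ' m false)) := by
      ring
    rw [e2]
    exact key _ _ _ (hth σ) (hth σ') (h01 _ _)
  · intro c hc σ σ'
    rw [hg σ, hg σ']
    have e2 : (1 + th σ) / 2 * g (Function.update σ m true) +
        (1 - th σ) / 2 * g (Function.update σ m false) -
        ((1 + th σ') / 2 * g (Function.update σ' m true) +
        (1 - th σ') / 2 * g (Function.update σ' m false)) =
        ((1 + th σ) / 2 * (g (Function.update σ m true) - g (Function.update σ' m true)) +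
          (1 - th σ) / 2 * (g (Function.update σ m false) - g (Function.update σ' m false))) +
        (th σ - th σ') / 2 * (g (Function.update σ' m true) - g (Function.update σ' m false)) := by
      ring
    rw [e2]
    refine (abs_add_le _ _).trans (add_le_add ?_ (key _ _ _ (hth σ) (hth σ') (h01 _ _)))
    have h1 := abs_le.1 (hth1 σ)
    have h2 := hc (Function.update σ m true) (Function.update σ' m true)
      (by rw [Function.update_self, Function.update_self])
    have h3 := hc (Function.update σ m false) (Function.update σ' m false)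
      (by rw [Function.update_self, Function.update_self])
    refine (abs_add_le _ _).trans ?_
    rw [abs_mul, abs_mul, abs_of_nonneg (by linarith : 0 ≤ (1 + th σ) / 2),
      abs_of_nonneg (by linarith : 0 ≤ (1 - th σ) / 2)]
    have h4 : (1 + th σ) / 2 * |g (Function.update σ m true) - g (Function.update σ' m true)| ≤
        (1 + th σ) / 2 * c := mul_le_mul_of_nonneg_left h2 (by linarith)
    have h5 : (1 - th σ) / 2 * |g (Function.update σ m false) - g (Function.update σ' m false)| ≤
        (1 - th σ) / 2 * c := mul_le_mul_of_nonneg_left h3 (by linarith)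
    linarith

/-- the tail of a summable sequence is small -/
theorem small_tail (a : ℕ → ℝ) (h0 : ∀ n, 0 ≤ a n) (hs : Summable a) (ε : ℝ) (hε : 0 < ε) :
    ∃ n₀, ∀ n, n₀ ≤ n → ∑ k ∈ Finset.range n, a k - ∑ k ∈ Finset.range n₀, a k ≤ ε := by
  have h1 := hs.hasSum.tendsto_sum_nat
  obtain ⟨n₀, hn₀⟩ := ((h1.eventually (lt_mem_nhds (by linarith : ∑' k, a k - ε < ∑' k, a k)))).exists
  refine ⟨n₀, fun n _ => ?_⟩
  have h2 := hs.sum_le_tsum (Finset.range n) (fun k _ => h0 k)
  linarith

end Pool.Agent.Q111.HEA
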