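import Pool.Agent.Q111.HEA.OSC

/-! # Project HEA: LOW -/

namespace Pool.Agent.Q111.HEA

open MeasureTheory Filter Topology Set Pool.Agent.Q291.HEA

theorem abs_x_ge (p q : ℝ) (s t : Bool) : |(|p| - |q|)| ≤ |p * sgn s + q * sgn t| := by
  have h1 : |p * sgn s| = |p| := by rw [abs_mul, abs_sgn, mul_one]
  have h2 : |q * sgn t| = |q| := by rw [abs_mul, abs_sgn, mul_one]
  have h3 := abs_sub_abs_le_abs_add (p * sgn s) (q * sgn t)
  have h4 := abs_sub_abs_le_abs_add (q * sgn t) (p * sgn s)
  rw [add_comm (q * sgn t)] at h4
  rw [h1, h2] at h3 h4
  rw [abs_le]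
  constructor <;> linarith

open Classical in
theorem upd_flip {V : Type} (σ : V → Bool) (m : V) (b : Bool) :
    Function.update (fun w => !(σ w)) m (!b) = fun w => !(Function.update σ m b w) := by
  funext w
  by_cases h : w = m
  · subst h
    rw [Function.update_self, Function.update_self]
  · rw [Function.update_of_ne h, Function.update_of_ne h]

theorem t_LOW : P_HFIN → P_ENDS → P_MEM → P_DEP → P_GEX → P_LOW := by
  intro hfin hends hmem _ hgex B _ e hA K hsum δ hδ
  classical
  obtain ⟨c1, c2, hLF, h4, -, -, hmono, hcov⟩ := @hfin B _ e hA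
  obtain ⟨Λ, hΛ⟩ : ∃ Λ : ℕ → Finset (Site B e), ∀ n v,
      v ∈ Λ n ↔ v ∈ Pool.Agent.Q291.HEA.inner n (orig : Bond B e) :=
    ⟨fun n => (h4 n orig).2.1.toFinset, fun n v => Set.Finite.mem_toFinset _⟩
  have hΛm : Monotone Λ := by
    intro a b hab v hv
    rw [hΛ] at hv ⊢
    exact hmono hab hv
  have hΛc : ∀ v, ∃ n, v ∈ Λ n := by
    intro v
    obtain ⟨n, hn⟩ := hcov v
    exact ⟨n, (hΛ n v).2 hn⟩
  obtain ⟨c, hc⟩ : ∃ c : ℕ → ℝ,
      c = fun n => 1 - Real.tanh (|(|(two K n).1| - |(two K n).2|)|) := ⟨_, rfl⟩
  have hc0 : ∀ n, 0 ≤ c n := by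
    intro n
    rw [hc]
    have := (Real.tanh_lt_one (|(|(two K n).1| - |(two K n).2|)|)).le
    simp only
    linarith
  rw [← hc] at hsum
  obtain ⟨n₀, hn₀⟩ := small_tail c hc0 hsum (min (1 - δ) (1 / 2))
    (lt_min (by linarith) (by norm_num))
  obtain ⟨k, hk, hek⟩ := hA.1 n₀
  obtain ⟨a, ha⟩ : ∃ a : Site B e, a = mid k 0 orig := ⟨_, rfl⟩
  have hal : lend k (orig : Bond B e) = a := by
    rw [ha]
    exact (ends_true hends hA k hek).1
  have hak : a ∉ Λ k := by
    rw [hΛ, ← hal]
    exact (h4 k orig).2.2.1
  have hak1 : a ∈ Λ (k + 1) := by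
    rw [hΛ, (@hends B _ e hA k orig 0).2.2.2.2.2.1]
    exact Or.inl ⟨0, ha⟩
  have hsub : ∀ m n, m ≤ n → ∑ j ∈ Finset.range m, c j ≤ ∑ j ∈ Finset.range n, c j := by
    intro m n h
    exact Finset.sum_le_sum_of_subset_of_nonneg (Finset.range_subset_range.2 h)
      (fun j _ _ => hc0 j)
  have htail : ∀ n, k ≤ n → ∑ j ∈ Finset.range n, c j - ∑ j ∈ Finset.range k, c j ≤
      min (1 - δ) (1 / 2) := by
    intro n hn
    have h1 := hn₀ n (by omega)
    have h2 := hsub n₀ k hk
    linarith
  have hAm : MeasurableSet ({η | η a = true} : Set (Site B e → Bool)) :=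
    (measurable_pi_apply a : Measurable fun η : Site B e → Bool => η a)
      (measurableSet_singleton true)
  have claim : ∀ n, k ≤ n → ∃ v : (Site B e → Bool) → Bool,
      (∀ σ, |finiteVolume (lend 0) (rend 0) K (Λ n) σ {η | η a = true} -
        (if v σ then 1 else 0)| ≤ ∑ j ∈ Finset.range n, c j - ∑ j ∈ Finset.range k, c j) ∧
      ∀ σ, v (fun w => !(σ w)) = !(v σ) := by
    intro n hn
    induction n, hn using Nat.le_induction with
    | base =>
      refine ⟨fun σ => σ a, fun σ => ?_, fun σ => rfl⟩
      rw [fv_off _ _ _ _ _ _ hak, sub_self, sub_self, abs_zero]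
    | succ n hn ih =>
      obtain ⟨v, hv1, hv2⟩ := ih
      obtain ⟨x, hx1, hx2⟩ := mem_step hmem hA K n (Λ n) (Λ (n + 1)) (hΛ n) (hΛ (n + 1))
        {η | η a = true} hAm (by
          intro η η' h
          have h5 : η a = η' a := by
            apply h
            rcases Nat.eq_or_lt_of_le hn with h6 | h6
            · left
              rw [← h6]
              exact ha
            · right
              exact hΛm (by omega : k + 1 ≤ n) hak1
          simp only [mem_ofPred_eq, h5])
      have hcn : c n ≤ 1 / 2 := by
        have h1 := (htail (n + 1) (by omega)).trans (min_le_right _ _)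
        rw [Finset.sum_range_succ] at h1
        have h2 := hsub k n hn
        linarith
      have hth : ∀ σ, 1 - c n ≤ Real.tanh |x σ| := by
        intro σ
        have h1 : Real.tanh (|(|(two K n).1| - |(two K n).2|)|) ≤ Real.tanh |x σ| := by
          apply tanh_mono
          rw [hx1]
          exact abs_x_ge _ _ _ _
        rw [hc]
        simp only
        linarith
      have hx0 : ∀ σ, x σ ≠ 0 := by
        intro σ h0
        have := hth σ
        rw [h0, abs_zero, Real.tanh_zero] at this
        linarith
      have hxf : ∀ σ, x (fun w => !(σ w)) = -x σ := by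
        intro σ
        rw [hx1, hx1, sgn_not, sgn_not]
        ring
      refine ⟨fun σ => v (Function.update σ (mid n 0 orig) (decide (0 < x σ))), fun σ => ?_,
        fun σ => ?_⟩
      · rw [Finset.sum_range_succ, hx2]
        obtain ⟨g, hg⟩ : ∃ g : (Site B e → Bool) → ℝ, g = fun σ =>
          finiteVolume (lend 0) (rend 0) K (Λ n) σ {η | η a = true} := ⟨_, rfl⟩
        have hgd : ∀ σ σ', |g σ - g σ'| ≤ 1 := by
          intro σ σ'
          rw [hg]
          exact fv_diff _ _ _ _ _ _ _
        have hv3 : ∀ σ, |g σ - (if v σ then 1 else 0)| ≤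
            ∑ j ∈ Finset.range n, c j - ∑ j ∈ Finset.range k, c j := by
          intro σ
          rw [hg]
          exact hv1 σ
        show |(1 + Real.tanh (x σ)) / 2 *
          (fun σ => finiteVolume (lend 0) (rend 0) K (Λ n) σ {η | η a = true})
            (Function.update σ (mid n 0 orig) true) +
          (1 - Real.tanh (x σ)) / 2 *
          (fun σ => finiteVolume (lend 0) (rend 0) K (Λ n) σ {η | η a = true})
            (Function.update σ (mid n 0 orig) false) -
          (if v (Function.update σ (mid n 0 orig) (decide (0 < x σ))) then 1 else 0)| ≤ _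
        rw [← hg]
        have h1 := hth σ
        have h2 := (Real.abs_tanh_lt_one (x σ)).le
        rw [abs_le] at h2
        rcases lt_or_gt_of_ne (hx0 σ) with h | h
        · have h3 : decide (0 < x σ) = false := by
            simp only [decide_eq_false_iff_not, not_lt]
            exact h.le
          rw [h3]
          rw [abs_of_neg h, Real.tanh_neg] at h1
          have e1 : (1 + Real.tanh (x σ)) / 2 * g (Function.update σ (mid n 0 orig) true) +
              (1 - Real.tanh (x σ)) / 2 * g (Function.update σ (mid n 0 orig) false) -
              (if v (Function.update σ (mid n 0 orig) false) then 1 else 0) =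
              (1 + Real.tanh (x σ)) / 2 * (g (Function.update σ (mid n 0 orig) true) -
                g (Function.update σ (mid n 0 orig) false)) +
              (g (Function.update σ (mid n 0 orig) false) -
              (if v (Function.update σ (mid n 0 orig) false) then 1 else 0)) := by ring
          rw [e1]
          refine (abs_add_le _ _).trans ?_
          rw [abs_mul, abs_of_nonneg (by linarith : 0 ≤ (1 + Real.tanh (x σ)) / 2)]
          have h5 := hgd (Function.update σ (mid n 0 orig) true)
            (Function.update σ (mid n 0 orig) false)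
          have h6 := mul_le_mul_of_nonneg_left h5
            (by linarith : 0 ≤ (1 + Real.tanh (x σ)) / 2)
          have h7 := hv3 (Function.update σ (mid n 0 orig) false)
          have h8 := hc0 n
          linarith
        · have h3 : decide (0 < x σ) = true := by
            simp only [decide_eq_true_eq]
            exact h
          rw [h3]
          rw [abs_of_pos h] at h1
          have e1 : (1 + Real.tanh (x σ)) / 2 * g (Function.update σ (mid n 0 orig) true) +
              (1 - Real.tanh (x σ)) / 2 * g (Function.update σ (mid n 0 orig) false) -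
              (if v (Function.update σ (mid n 0 orig) true) then 1 else 0) =
              (1 - Real.tanh (x σ)) / 2 * (g (Function.update σ (mid n 0 orig) false) -
                g (Function.update σ (mid n 0 orig) true)) +
              (g (Function.update σ (mid n 0 orig) true) -
              (if v (Function.update σ (mid n 0 orig) true) then 1 else 0)) := by ring
          rw [e1]
          refine (abs_add_le _ _).trans ?_
          rw [abs_mul, abs_of_nonneg (by linarith : 0 ≤ (1 - Real.tanh (x σ)) / 2)]
          have h5 := hgd (Function.update σ (mid n 0 orig) false)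
            (Function.update σ (mid n 0 orig) true)
          have h6 := mul_le_mul_of_nonneg_left h5
            (by linarith : 0 ≤ (1 - Real.tanh (x σ)) / 2)
          have h7 := hv3 (Function.update σ (mid n 0 orig) true)
          have h8 := hc0 n
          linarith
      · have h1 : decide (0 < x (fun w => !(σ w))) = !(decide (0 < x σ)) := by
          rw [hxf]
          rcases lt_or_gt_of_ne (hx0 σ) with h | h
          · have e1 : decide (0 < -x σ) = true := by
              simp only [decide_eq_true_eq]
              linarith
            have e2 : decide (0 < x σ) = false := by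
              simp only [decide_eq_false_iff_not, not_lt]
              exact h.le
            rw [e1, e2]
            rfl
          · have e1 : decide (0 < -x σ) = false := by
              simp only [decide_eq_false_iff_not, not_lt]
              linarith
            have e2 : decide (0 < x σ) = true := by
              simp only [decide_eq_true_eq]
              exact h
            rw [e1, e2]
            rfl
        simp only [h1]
        rw [upd_flip, hv2]
  have hfin' : ∀ n, ∃ σ : Site B e → Bool, k ≤ n →
      δ ≤ finiteVolume (lend 0) (rend 0) K (Λ n) σ {η | η a = true} := by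
    intro n
    by_cases hn : k ≤ n
    · obtain ⟨v, hv1, hv2⟩ := claim n hn
      obtain ⟨σ, hσ⟩ : ∃ σ, v σ = true := by
        cases h : v (fun _ => true) with
        | true => exact ⟨_, h⟩
        | false =>
          refine ⟨fun w => !((fun _ : Site B e => true) w), ?_⟩
          rw [hv2, h]
          rfl
      refine ⟨σ, fun _ => ?_⟩
      have h1 := hv1 σ
      rw [hσ, if_pos rfl] at h1
      have h2 := (abs_le.1 h1).1
      have h3 := (htail n hn).trans (min_le_left _ _)
      linarith
    · exact ⟨fun _ => true, fun h => absurd h hn⟩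
  choose σ hσ using hfin'
  obtain ⟨π, h1, h2⟩ := hgex (lend (B := B) (e := e) 0) (rend 0) hLF K Λ hΛm hΛc a δ σ
    (eventually_atTop.2 ⟨k, hσ⟩)
  exact ⟨a, π, h1, h2⟩

end Pool.Agent.Q111.HEA
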