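import Pool.Agent.Q111.HEA.Base

/-! # Project HEA: OSC -/

namespace Pool.Agent.Q111.HEA

open MeasureTheory Filter Topology Set Pool.Agent.Q291.HEA

section

variable {B : ℕ} [NeZero B] {e : ℕ → Bool}

theorem upd_orig (n : ℕ) : upd (orig : Bond B e) n (0, e n) = orig := by
  apply Subtype.ext
  show Function.update (fun k => (0, e k)) n (0, e n) = fun k => (0, e k)
  exact Function.update_eq_self n (fun k => ((0 : Fin B), e k))

theorem ends_false (hends : P_ENDS) (hA : Alt e) (n : ℕ) (he : e n = false) :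
    lend n (orig : Bond B e) = lend (n + 1) orig ∧ rend n (orig : Bond B e) = mid n 0 orig := by
  have h := @hends B _ e hA n orig 0
  have h1 : upd (orig : Bond B e) n (0, false) = orig := by
    rw [← he]
    exact upd_orig n
  rw [h1] at h
  exact ⟨h.1, h.2.1⟩

theorem ends_true (hends : P_ENDS) (hA : Alt e) (n : ℕ) (he : e n = true) :
    lend n (orig : Bond B e) = mid n 0 orig ∧ rend n (orig : Bond B e) = rend (n + 1) orig := by
  have h := @hends B _ e hA n orig 0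
  have h1 : upd (orig : Bond B e) n (0, true) = orig := by
    rw [← he]
    exact upd_orig n
  rw [h1] at h
  exact ⟨h.2.2.1, h.2.2.2.1⟩

open Classical in
theorem mem_step (hmem : P_MEM) (hA : Alt e) (K : Bond B e → ℝ) (n : ℕ)
    (Λ Λ' : Finset (Site B e)) (h1 : ∀ v, v ∈ Λ ↔ v ∈ Pool.Agent.Q291.HEA.inner n (orig : Bond B e))
    (h2 : ∀ v, v ∈ Λ' ↔ v ∈ Pool.Agent.Q291.HEA.inner (n + 1) (orig : Bond B e)) (A : Set (Site B e → Bool))
    (hAm : MeasurableSet A) (hAd : ∀ η η' : Site B e → Bool,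
      (∀ v ∈ insert (mid n 0 orig) (Λ : Set (Site B e)), η v = η' v) → (η ∈ A ↔ η' ∈ A)) :
    ∃ x : (Site B e → Bool) → ℝ,
      (∀ σ, x σ = (two K n).1 * sgn (σ (lend (n + 1) orig)) +
        (two K n).2 * sgn (σ (rend (n + 1) orig))) ∧
      ∀ σ, finiteVolume (lend 0) (rend 0) K Λ' σ A =
        (1 + Real.tanh (x σ)) / 2 *
          finiteVolume (lend 0) (rend 0) K Λ (Function.update σ (mid n 0 orig) true) A +
        (1 - Real.tanh (x σ)) / 2 *
          finiteVolume (lend 0) (rend 0) K Λ (Function.update σ (mid n 0 orig) false) A :=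
  ⟨_, fun _ => rfl, fun σ => @hmem B _ e hA K n Λ Λ' h1 h2 A hAm hAd σ⟩

theorem abs_x_le (K : Bond B e → ℝ) (n : ℕ) (s t : Bool) :
    |(two K n).1 * sgn s + (two K n).2 * sgn t| ≤ |(two K n).1| + |(two K n).2| := by
  refine (abs_add_le _ _).trans ?_
  rw [abs_mul, abs_mul, abs_sgn, abs_sgn, mul_one, mul_one]

end

theorem t_OSC : P_HFIN → P_ENDS → P_MEM → P_DEP → P_GUN → P_GEX → P_OSC := by
  intro hfin hends hmem hdep hgun hgex B _ e hA K hsum
  classical
  obtain ⟨c1, c2, hLF, h4, -, -, hmono, hcov⟩ := @hfin B _ e hA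
  obtain ⟨Λ, hΛ⟩ : ∃ Λ : ℕ → Finset (Site B e), ∀ n v, v ∈ Λ n ↔ v ∈ Pool.Agent.Q291.HEA.inner n (orig : Bond B e) :=
    ⟨fun n => (h4 n orig).2.1.toFinset, fun n v => Set.Finite.mem_toFinset _⟩
  have hΛm : Monotone Λ := by
    intro a b hab v hv
    rw [hΛ] at hv ⊢
    exact hmono hab hv
  have hΛc : ∀ v, ∃ n, v ∈ Λ n := by
    intro v
    obtain ⟨n, hn⟩ := hcov v
    exact ⟨n, (hΛ n v).2 hn⟩
  have hex : ∃ π, IsGibbs (lend (B := B) (e := e) 0) (rend 0) K π := by
    obtain ⟨π, h1, -⟩ := hgex (lend (B := B) (e := e) 0) (rend 0) hLF K Λ hΛm hΛc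
      (lend 0 orig) 0 (fun _ _ => true) (Eventually.of_forall fun n => fv_nonneg _ _ _ _ _ _)
    exact ⟨π, h1⟩
  obtain ⟨π, hπ⟩ := hex
  refine ⟨π, hπ, fun π' hπ' => ?_⟩
  refine hgun (lend (B := B) (e := e) 0) (rend 0) hLF K Λ hΛm hΛc ?_ π' π hπ' hπ
  intro m A hAm hAd ε hε
  obtain ⟨a, ha⟩ : ∃ a : ℕ → ℝ, a = fun n => 2 * (|(two K n).1| + |(two K n).2|) := ⟨_, rfl⟩
  have ha0 : ∀ n, 0 ≤ a n := by
    intro n
    rw [ha]
    positivity
  have has : Summable a := by
    rw [ha]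
    exact hsum.mul_left 2
  obtain ⟨n₀, hn₀⟩ := small_tail a ha0 has ε hε
  obtain ⟨g, hg⟩ : ∃ g : ℕ → (Site B e → Bool) → ℝ,
      g = fun n σ => finiteVolume (lend 0) (rend 0) K (Λ n) σ A := ⟨_, rfl⟩
  have g01 : ∀ n σ σ', |g n σ - g n σ'| ≤ 1 := by
    intro n σ σ'
    rw [hg]
    exact fv_diff _ _ _ _ _ _ _
  have hdepn : ∀ n, m ≤ n → ∀ σ σ', σ (lend n orig) = σ' (lend n orig) →
      σ (rend n orig) = σ' (rend n orig) → g n σ = g n σ' := by
    intro n hn σ σ' h1 h2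
    rw [hg]
    refine @hdep B _ e hA K n (Λ n) (hΛ n) ∅ A ?_ σ σ' ?_
    · intro η η' h
      apply hAd
      intro v hv
      exact h v (Or.inr (hΛm hn hv))
    · intro v hv
      rcases hv with hv | hv | hv
      · exact absurd hv (notMem_empty v)
      · rw [hv]
        exact h1
      · rw [mem_singleton_iff.1 hv]
        exact h2
  have hmemn : ∀ n, m ≤ n → ∃ th : (Site B e → Bool) → ℝ, (∀ σ, |th σ| ≤ a n) ∧
      (∀ σ, |th σ| ≤ 1) ∧ ∀ σ, g (n + 1) σ =
        (1 + th σ) / 2 * g n (Function.update σ (mid n 0 orig) true) +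
        (1 - th σ) / 2 * g n (Function.update σ (mid n 0 orig) false) := by
    intro n hn
    obtain ⟨x, hx1, hx2⟩ := mem_step hmem hA K n (Λ n) (Λ (n + 1)) (hΛ n) (hΛ (n + 1)) A hAm (by
      intro η η' h
      apply hAd
      intro v hv
      exact h v (Or.inr (hΛm hn hv)))
    refine ⟨fun σ => Real.tanh (x σ), fun σ => ?_, fun σ => abs_tanh_le_one _, fun σ => ?_⟩
    · refine (abs_tanh_le _).trans ?_
      rw [hx1, ha]
      exact mul_le_mul_of_nonneg_left (abs_x_le K n _ _) (by norm_num)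
    · rw [hg]
      exact hx2 σ
  have hne : ∀ n, lend n (orig : Bond B e) ≠ rend n orig := fun n => (h4 n orig).2.2.2.2
  have stepF : ∀ n, m ≤ n → e n = false → ∀ c,
      (∀ σ σ', σ (rend n orig) = σ' (rend n orig) → |g n σ - g n σ'| ≤ c) →
      ∀ σ σ', |g (n + 1) σ - g (n + 1) σ'| ≤ c + a n := by
    intro n hn he c hc
    obtain ⟨th, t1, t2, t3⟩ := hmemn n hn
    obtain ⟨e1, e2⟩ := ends_false (B := B) hends hA n he
    refine (step (g n) (g (n + 1)) th (mid n 0 orig) (lend n orig) (by rw [← e2]; exact hne n)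
      (a n) t1 t2 t3 ?_ (g01 n)).2 c ?_
    · intro σ σ' h1 h2
      exact hdepn n hn σ σ' h1 (by rw [e2]; exact h2)
    · intro σ σ' h1
      exact hc σ σ' (by rw [e2]; exact h1)
  have stepT : ∀ n, m ≤ n → e n = true →
      ∀ σ σ', σ (rend (n + 1) orig) = σ' (rend (n + 1) orig) → |g (n + 1) σ - g (n + 1) σ'| ≤ a n := by
    intro n hn he
    obtain ⟨th, t1, t2, t3⟩ := hmemn n hn
    obtain ⟨e1, e2⟩ := ends_true (B := B) hends hA n he
    have h5 := (step (g n) (g (n + 1)) th (mid n 0 orig) (rend n orig)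
      (by rw [← e1]; exact (hne n).symm) (a n) t1 t2 t3 (fun σ σ' h1 h2 =>
        hdepn n hn σ σ' (by rw [e1]; exact h2) h1) (g01 n)).1
    intro σ σ' h
    exact h5 σ σ' (by rw [e2]; exact h)
  obtain ⟨k, hk, hek⟩ := hA.1 (max n₀ m)
  have hkn : n₀ ≤ k := (le_max_left _ _).trans hk
  have hkm : m ≤ k := (le_max_right _ _).trans hk
  have run : ∀ n, k + 1 ≤ n → ∀ σ σ', σ (rend n orig) = σ' (rend n orig) →
      |g n σ - g n σ'| ≤ ∑ j ∈ Finset.range n, a j - ∑ j ∈ Finset.range k, a j := by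
    intro n hn
    induction n, hn using Nat.le_induction with
    | base =>
      intro σ σ' h
      rw [Finset.sum_range_succ, add_sub_cancel_left]
      exact stepT k hkm hek σ σ' h
    | succ n hn ih =>
      intro σ σ' h
      rw [Finset.sum_range_succ]
      cases hen : e n with
      | false =>
        have := stepF n (by omega) hen _ ih σ σ'
        linarith
      | true =>
        have h1 := stepT n (by omega) hen σ σ' h
        have h2 : ∑ j ∈ Finset.range k, a j ≤ ∑ j ∈ Finset.range n, a j :=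
          Finset.sum_le_sum_of_subset_of_nonneg (Finset.range_subset_range.2 (by omega))
            (fun j _ _ => ha0 j)
        linarith
  obtain ⟨k₂, hk₂, hek₂⟩ := hA.2 (k + 1)
  refine ⟨k₂ + 1, fun σ σ' => ?_⟩
  have h1 := stepF k₂ (by omega) hek₂ _ (run k₂ hk₂) σ σ'
  have h2 := hn₀ (k₂ + 1) (by omega)
  have h3 : ∑ j ∈ Finset.range n₀, a j ≤ ∑ j ∈ Finset.range k, a j :=
    Finset.sum_le_sum_of_subset_of_nonneg (Finset.range_subset_range.2 hkn)
      (fun j _ _ => ha0 j)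
  rw [Finset.sum_range_succ] at h2
  rw [hg] at h1
  refine h1.trans ?_
  linarith

end Pool.Agent.Q111.HEA
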